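import Pool.Agent.H73.GWQ.Stmts2

/-! Project GWQ, row N6Q: the commensurator is virtually cyclic. -/

set_option autoImplicit false

open Classical

namespace GWQ

section N6Qsec

variable {G V : Type*} [Group G] (D : QM G V)

theorem N6Q_nm_inv (g : G) : D.nm g⁻¹ = D.nm g := by
  show D.d 1 g⁻¹ = D.d 1 g
  rw [← D.inv g 1 g⁻¹, mul_one, mul_inv_cancel, D.comm]

/-- `d (k x) k = nm x` -/
theorem N6Q_left (k x : G) : D.d (k * x) k = D.nm x := by
  have h := D.inv k x 1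
  rw [mul_one] at h
  rw [h, D.comm]
  rfl

/-- `d k (k x) = nm x` -/
theorem N6Q_left' (k x : G) : D.d k (k * x) = D.nm x := by
  rw [D.comm, N6Q_left]

theorem N6Q_mul (g h : G) : D.nm (g * h) ≤ D.nm g + D.nm h := by
  have h1 := D.tri 1 g (g * h)
  rw [N6Q_left'] at h1
  exact h1

/-- `d (g^i) (g^j) = nm (g^(j-i))` for `i ≤ j` -/
theorem N6Q_pow (g : G) (i j : ℕ) (h : i ≤ j) : D.d (g ^ i) (g ^ j) = D.nm (g ^ (j - i)) := by
  have h1 : g ^ j = g ^ i * g ^ (j - i) := by rw [← pow_add, Nat.add_sub_cancel' h]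
  rw [h1, N6Q_left']

/-- `g^N x` is near the segment `[1, g^(2N)]` -/
theorem N6Q_near (hN1 : N1QStmt D) (hTRN : TRNStmt D) (g : G) (hg : Reg D g) (n : ℕ)
    (hn : 1 ≤ n) (x : G) (hx : x * g ^ n = g ^ n * x ∨ x * g ^ n = g ^ (-(n : ℤ)) * x) :
    ∃ N : ℕ, D.nm x + BB D g + 8 * D.δ < D.nm (g ^ N) ∧
      D.nm (g ^ N * x) + D.d (g ^ N * x) (g ^ (2 * N)) ≤
        D.nm (g ^ (2 * N)) + (BB D g + 8 * D.δ) := by
  obtain ⟨a1, a2, a3⟩ := hN1 g hg
  set B := BB D g with hB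
  obtain ⟨k, hk⟩ : ∃ k, k = D.nm x + B + 8 * D.δ + 1 := ⟨_, rfl⟩
  obtain ⟨N, hN⟩ : ∃ N, N = n * k := ⟨_, rfl⟩
  have hNk : k ≤ N := by
    rw [hN]
    exact Nat.le_mul_of_pos_left k hn
  have hbig : D.nm x + B + 8 * D.δ < D.nm (g ^ N) := by
    have := a3 N
    omega
  have hdef : D.nm (g ^ N) + D.nm (g ^ N) ≤ D.nm (g ^ (2 * N)) + B := by
    have := a1 N N
    rwa [show N + N = 2 * N by ring] at this
  refine ⟨N, hbig, ?_⟩
  rcases hx with h | h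
  · have hc : ∀ m : ℕ, x * g ^ (n * m) = g ^ (n * m) * x := by
      intro m
      rw [pow_mul]
      exact (show SemiconjBy x (g ^ n) (g ^ n) from h).pow_right m
    have hcN : x * g ^ N = g ^ N * x := by rw [hN]; exact hc k
    have hc2 : x * g ^ (2 * N) = g ^ (2 * N) * x := by
      rw [hN, show 2 * (n * k) = n * (2 * k) by ring]
      exact hc _
    have h1 := hTRN x (g ^ (2 * N)) (g ^ N) (g ^ (2 * N)) (D.nm x) B le_rfl
      (by rw [hc2, N6Q_left]) (by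
        rw [N6Q_pow D g N (2 * N) (by omega), show 2 * N - N = N by omega]
        exact hdef) (by omega) (by
        rw [N6Q_pow D g N (2 * N) (by omega), show 2 * N - N = N by omega]
        omega)
    rw [hcN] at h1
    omega
  · have hc : ∀ m : ℕ, x * (g ^ (n * m))⁻¹ = g ^ (n * m) * x := by
      intro m
      have h2 : SemiconjBy x (g ^ n) (g ^ n)⁻¹ := by
        show x * g ^ n = (g ^ n)⁻¹ * x
        rw [h, zpow_neg, zpow_natCast]
      have h3 : SemiconjBy x ((g ^ n) ^ m) (((g ^ n)⁻¹) ^ m) := h2.pow_right m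
      rw [pow_mul]
      have h4 := h3.inv_right
      rw [inv_pow, inv_inv] at h4
      exact h4
    have hcN : x * (g ^ N)⁻¹ = g ^ N * x := by rw [hN]; exact hc k
    have hc2 : x * (g ^ (2 * N))⁻¹ = g ^ (2 * N) * x := by
      rw [hN, show 2 * (n * k) = n * (2 * k) by ring]
      exact hc _
    have hd : D.d (g ^ N)⁻¹ (g ^ (2 * N))⁻¹ = D.nm (g ^ N) := by
      have h5 := D.inv (g ^ (2 * N)) (g ^ N)⁻¹ (g ^ (2 * N))⁻¹
      rw [← h5, mul_inv_cancel, two_mul, pow_add, mul_inv_cancel_right, D.comm]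
      rfl
    have h1 := hTRN x (g ^ (2 * N)) (g ^ N)⁻¹ (g ^ (2 * N))⁻¹ (D.nm x) B le_rfl
      (by rw [hc2, N6Q_left]) (by
        rw [hd, N6Q_nm_inv, N6Q_nm_inv]
        exact hdef) (by rw [N6Q_nm_inv]; omega) (by rw [hd]; omega)
    rw [hcN] at h1
    omega

/-- every `x` is near the axis -/
theorem N6Q_axis (hN1 : N1QStmt D) (hNEA : NEAStmt D) (hTRN : TRNStmt D) (g : G)
    (hg : Reg D g) (n : ℕ) (hn : 1 ≤ n) (x : G)
    (hx : x * g ^ n = g ^ n * x ∨ x * g ^ n = g ^ (-(n : ℤ)) * x) :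
    ∃ j : ℤ, D.nm (g ^ j * x) ≤ BB D g + 12 * D.δ + D.nm g := by
  obtain ⟨N, h1, h2⟩ := N6Q_near D hN1 hTRN g hg n hn x hx
  obtain ⟨a1, a2, a3⟩ := hN1 g hg
  set B := BB D g with hB
  have h3 : D.nm (g ^ N * x) ≤ D.nm (g ^ N) + D.nm x := N6Q_mul D _ _
  have h4 : D.nm (g ^ N) + D.nm (g ^ N) ≤ D.nm (g ^ (2 * N)) + B := by
    have := a1 N N
    rwa [show N + N = 2 * N by ring] at this
  have hex : ∃ i : ℕ, D.nm (g ^ N * x) < D.nm (g ^ i) := ⟨2 * N, by omega⟩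
  obtain ⟨i, hi⟩ : ∃ i, i = Nat.find hex := ⟨_, rfl⟩
  have hi1 : D.nm (g ^ N * x) < D.nm (g ^ i) := by
    rw [hi]
    exact Nat.find_spec hex
  have hi2 : i ≤ 2 * N := by
    rw [hi]
    exact Nat.find_min' hex (by omega)
  have hi0 : i ≠ 0 := by
    intro h0
    rw [h0, pow_zero] at hi1
    have : D.nm 1 = 0 := D.self 1
    omega
  obtain ⟨j, hj⟩ : ∃ j, i = j + 1 := ⟨i - 1, by omega⟩
  have hj1 : D.nm (g ^ j) ≤ D.nm (g ^ N * x) := by
    by_contra hc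
    have h5 := Nat.find_min hex (m := j) (by rw [← hi]; omega)
    exact h5 (by omega)
  have hj2 : D.nm (g ^ i) ≤ D.nm (g ^ j) + D.nm g := by
    rw [hj, pow_succ]
    exact N6Q_mul D _ _
  have h6 : D.nm (g ^ j) + D.d (g ^ j) (g ^ (2 * N)) ≤ D.nm (g ^ (2 * N)) + (B + 8 * D.δ) := by
    rw [N6Q_pow D g j (2 * N) (by omega)]
    have h7 := a1 j (2 * N - j)
    rw [show j + (2 * N - j) = 2 * N by omega] at h7
    omega
  have h8 := hNEA (g ^ (2 * N)) (g ^ j) (g ^ N * x) (B + 8 * D.δ) (D.nm g) h6 h2 (by omega)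
    (by omega)
  refine ⟨(N : ℤ) - j, ?_⟩
  have h9 : D.nm (g ^ ((N : ℤ) - j) * x) = D.d (g ^ j) (g ^ N * x) := by
    rw [← D.inv (g ^ j)⁻¹ (g ^ j) (g ^ N * x), inv_mul_cancel]
    show D.d 1 _ = D.d 1 _
    rw [zpow_sub, zpow_natCast, zpow_natCast, ← mul_assoc, ((Commute.refl g).pow_pow N j).inv_right.eq]
  rw [h9]
  omega

theorem N6Q (hN1 : N1QStmt D) (hN4 : N4QStmt D) (hNEA : NEAStmt D) (hTRN : TRNStmt D) :
    N6QStmt D := by
  intro g hg hW n hn hx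
  obtain ⟨R, hR⟩ : ∃ R, R = BB D g + 12 * D.δ + D.nm g := ⟨_, rfl⟩
  obtain ⟨n₀, hn₀⟩ := hN4 g hg hW R
  obtain ⟨M, hM⟩ : ∃ M, M = n * n₀ := ⟨_, rfl⟩
  have hMn : n₀ ≤ M := by
    rw [hM]
    exact Nat.le_mul_of_pos_left n₀ hn
  obtain ⟨f1, f2⟩ := hn₀ M hMn
  have hfin := f1.union f2
  set F : Set G := {x : G | D.nm x ≤ R ∧ D.d (g ^ M) (x * g ^ M) ≤ R} ∪
    {x : G | D.nm x ≤ R ∧ D.d (g ^ (-(M : ℤ))) (x * g ^ M) ≤ R} with hF
  have hcov : ∀ x : G, ∃ y ∈ F, ∃ j : ℤ, x = g ^ j * y := by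
    intro x
    obtain ⟨j, hj⟩ := N6Q_axis D hN1 hNEA hTRN g hg n hn x (hx x)
    rw [← hR] at hj
    refine ⟨g ^ j * x, ?_, -j, by rw [← mul_assoc, ← zpow_add, neg_add_cancel, zpow_zero, one_mul]⟩
    rcases hx (g ^ j * x) with h | h
    · left
      refine ⟨hj, ?_⟩
      have h1 : g ^ j * x * g ^ M = g ^ M * (g ^ j * x) := by
        rw [hM, pow_mul]
        exact (show SemiconjBy (g ^ j * x) (g ^ n) (g ^ n) from h).pow_right n₀
      rw [h1, N6Q_left']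
      exact hj
    · right
      refine ⟨hj, ?_⟩
      have h1 : g ^ j * x * g ^ M = g ^ (-(M : ℤ)) * (g ^ j * x) := by
        have h2 := (show SemiconjBy (g ^ j * x) (g ^ n) (g ^ (-(n : ℤ))) from h).pow_right n₀
        have h3 : (g ^ (-(n : ℤ))) ^ n₀ = g ^ (-(M : ℤ)) := by
          rw [← zpow_natCast, ← zpow_mul, hM, Nat.cast_mul, neg_mul]
        rw [h3, ← pow_mul, ← hM] at h2
        exact h2
      rw [h1, N6Q_left']
      exact hj
  haveI : Finite F := hfin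
  haveI : Finite (G ⧸ Subgroup.zpowers g) := by
    refine Finite.of_surjective (fun y : F => (QuotientGroup.mk (y.1)⁻¹ : G ⧸ Subgroup.zpowers g))
      ?_
    intro q
    induction q using QuotientGroup.induction_on with
    | H x =>
      obtain ⟨y, hy, j, hj⟩ := hcov x⁻¹
      refine ⟨⟨y, hy⟩, ?_⟩
      show (QuotientGroup.mk y⁻¹ : G ⧸ Subgroup.zpowers g) = QuotientGroup.mk x
      rw [QuotientGroup.eq, inv_inv]
      have h1 : x = y⁻¹ * (g ^ j)⁻¹ := by rw [← mul_inv_rev, ← hj, inv_inv]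
      rw [h1, ← mul_assoc, mul_inv_cancel, one_mul, ← zpow_neg]
      exact Subgroup.zpow_mem_zpowers g _
  exact Subgroup.index_ne_zero_of_finite

end N6Qsec

end GWQ
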